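import Mathlib

/-!
# MP_0a2dc5_al : a finite abelian group whose subgroup lattice embeds into no subspace lattice

The subgroup lattice of `(ℤ/p²)³` (`p` prime) does not embed into the lattice of subspaces of any
vector space over any division ring. More generally this holds for every abelian group which has
`(ℤ/p²)³` as a quotient of a subgroup.

Proof: an embedding `f` sends `⟨e₁ + k e₂⟩` to the graph (modulo `f 0`) of a linear map `g_k` from
`f⟨e₁⟩` to `f⟨e₂⟩`, and `g_k = k g₁` by the usual coordinatisation argument with `e₃`; the kernel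
`f⟨p e₁⟩` of `g_p = p g₁` is neither `0` nor everything, whereas `p` is zero or invertible in a
division ring.
-/

namespace Pool.Agent.Results.MP_0a2dc5_al.NoSkewEmbedding

universe u v w

/-- The group `(ℤ/n)³`. -/
abbrev C (n : ℕ) : Type := ZMod n × ZMod n × ZMod n

section lattice

variable (n : ℕ)

/-- The cyclic subgroup generated by `(a, b, c)`. -/
def cyc (a b c : ℤ) : AddSubgroup (C n) :=
  AddSubgroup.zmultiples (((a : ZMod n), (b : ZMod n), (c : ZMod n)) : C n)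

theorem mem_cyc {a b c : ℤ} {x : C n} :
    x ∈ cyc n a b c ↔ ∃ k : ℤ, x = (((k * a : ℤ) : ZMod n), ((k * b : ℤ) : ZMod n), ((k * c : ℤ) : ZMod n)) := by
  unfold cyc
  rw [AddSubgroup.mem_zmultiples_iff]
  constructor
  · rintro ⟨k, rfl⟩
    refine ⟨k, ?_⟩
    simp
  · rintro ⟨k, rfl⟩
    refine ⟨k, ?_⟩
    simp

theorem le1 (k : ℤ) : (cyc n 1 k 0 ⊔ cyc n 0 0 1) ⊓ (cyc n 1 0 1 ⊔ cyc n 0 1 0) ≤ cyc n 1 k 1 := by
  rintro x ⟨h1, h2⟩
  obtain ⟨u, hu, v, hv, rfl⟩ := AddSubgroup.mem_sup.1 h1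
  obtain ⟨u', hu', v', hv', h⟩ := AddSubgroup.mem_sup.1 h2
  obtain ⟨a, rfl⟩ := (mem_cyc n).1 hu
  obtain ⟨b, rfl⟩ := (mem_cyc n).1 hv
  obtain ⟨c, rfl⟩ := (mem_cyc n).1 hu'
  obtain ⟨d, rfl⟩ := (mem_cyc n).1 hv'
  have e1 := congrArg Prod.fst h
  have e2 := congrArg (fun y => y.2.1) h
  have e3 := congrArg (fun y => y.2.2) h
  push_cast at e1 e2 e3
  simp at e1 e2 e3
  rw [mem_cyc]
  refine ⟨a, ?_⟩
  ext
  · simp
  · simp
  · simp
    rw [← e3, e1]

theorem le2 : (cyc n 1 0 1 ⊔ cyc n 1 1 0) ⊓ (cyc n 0 1 0 ⊔ cyc n 0 0 1) ≤ cyc n 0 (-1) 1 := by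
  rintro x ⟨h1, h2⟩
  obtain ⟨u, hu, v, hv, rfl⟩ := AddSubgroup.mem_sup.1 h1
  obtain ⟨u', hu', v', hv', h⟩ := AddSubgroup.mem_sup.1 h2
  obtain ⟨a, rfl⟩ := (mem_cyc n).1 hu
  obtain ⟨b, rfl⟩ := (mem_cyc n).1 hv
  obtain ⟨c, rfl⟩ := (mem_cyc n).1 hu'
  obtain ⟨d, rfl⟩ := (mem_cyc n).1 hv'
  have e1 := congrArg Prod.fst h
  simp at e1
  rw [mem_cyc]
  refine ⟨a, ?_⟩
  ext
  · simp
    rw [← e1]
  · simp
    linear_combination -e1
  · simp

theorem le3 (k : ℤ) : (cyc n 1 k 1 ⊔ cyc n 0 (-1) 1) ⊓ (cyc n 1 0 0 ⊔ cyc n 0 1 0) ≤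
    cyc n 1 (k + 1) 0 := by
  rintro x ⟨h1, h2⟩
  obtain ⟨u, hu, v, hv, rfl⟩ := AddSubgroup.mem_sup.1 h1
  obtain ⟨u', hu', v', hv', h⟩ := AddSubgroup.mem_sup.1 h2
  obtain ⟨a, rfl⟩ := (mem_cyc n).1 hu
  obtain ⟨b, rfl⟩ := (mem_cyc n).1 hv
  obtain ⟨c, rfl⟩ := (mem_cyc n).1 hu'
  obtain ⟨d, rfl⟩ := (mem_cyc n).1 hv'
  have e3 := congrArg (fun y => y.2.2) h
  simp at e3
  rw [mem_cyc]
  refine ⟨a, ?_⟩
  ext
  · simp
  · simp
    linear_combination e3
  · simp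
    rw [← e3]

theorem le4 (k : ℤ) : cyc n 1 0 0 ≤ cyc n 1 k 0 ⊔ cyc n 0 1 0 := by
  intro x hx
  obtain ⟨a, rfl⟩ := (mem_cyc n).1 hx
  rw [AddSubgroup.mem_sup]
  refine ⟨_, (mem_cyc n).2 ⟨a, rfl⟩, _, (mem_cyc n).2 ⟨-(a * k), rfl⟩, ?_⟩
  ext <;> simp

theorem le5 : cyc n 1 0 0 ≤ cyc n 1 0 1 ⊔ cyc n 0 0 1 := by
  intro x hx
  obtain ⟨a, rfl⟩ := (mem_cyc n).1 hx
  rw [AddSubgroup.mem_sup]
  refine ⟨_, (mem_cyc n).2 ⟨a, rfl⟩, _, (mem_cyc n).2 ⟨-a, rfl⟩, ?_⟩
  ext <;> simp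

theorem inf_e2 (k : ℤ) : cyc n 1 k 0 ⊓ cyc n 0 1 0 ≤ ⊥ := by
  rintro x ⟨h1, h2⟩
  obtain ⟨a, rfl⟩ := (mem_cyc n).1 h1
  obtain ⟨b, h⟩ := (mem_cyc n).1 h2
  have e1 := congrArg Prod.fst h
  simp at e1
  rw [AddSubgroup.mem_bot]
  ext <;> simp [e1]

theorem inf_e1 : cyc n 1 0 0 ⊓ cyc n 1 1 0 ≤ ⊥ := by
  rintro x ⟨h1, h2⟩
  obtain ⟨a, rfl⟩ := (mem_cyc n).1 h1
  obtain ⟨b, h⟩ := (mem_cyc n).1 h2
  have e1 := congrArg Prod.fst h
  have e2 := congrArg (fun y => y.2.1) h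
  simp at e1 e2
  rw [AddSubgroup.mem_bot]
  ext <;> simp [e1, ← e2]

end lattice

section prime

variable (p : ℕ) [hp : Fact p.Prime]

theorem inf_p : cyc (p ^ 2) 1 p 0 ⊓ cyc (p ^ 2) 1 0 0 ≤ cyc (p ^ 2) p 0 0 := by
  rintro x ⟨h1, h2⟩
  obtain ⟨a, rfl⟩ := (mem_cyc _).1 h1
  obtain ⟨b, h⟩ := (mem_cyc _).1 h2
  have e2 := congrArg (fun y => y.2.1) h
  have e2' : ((a * p : ℤ) : ZMod (p ^ 2)) = 0 := by simpa using e2
  rw [ZMod.intCast_zmod_eq_zero_iff_dvd] at e2'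
  have h3 : (p : ℤ) ∣ a := by
    have hp0 : (p : ℤ) ≠ 0 := by exact_mod_cast hp.out.ne_zero
    have h4 : (p : ℤ) * p ∣ a * p := by
      have : ((p ^ 2 : ℕ) : ℤ) = (p : ℤ) * p := by push_cast; ring
      rwa [this] at e2'
    exact Int.dvd_of_mul_dvd_mul_right hp0 h4
  obtain ⟨c, rfl⟩ := h3
  rw [mem_cyc]
  refine ⟨c, ?_⟩
  ext
  · simp [mul_comm]
  · simp only
    rw [ZMod.intCast_zmod_eq_zero_iff_dvd _ _ |>.2 e2']
    simp
  · simp

omit hp in
theorem p_le : cyc (p ^ 2) p 0 0 ≤ cyc (p ^ 2) 1 p 0 := by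
  intro x hx
  obtain ⟨a, rfl⟩ := (mem_cyc _).1 hx
  rw [mem_cyc]
  refine ⟨a * p, ?_⟩
  have : ((a * p * p : ℤ) : ZMod (p ^ 2)) = 0 := by
    rw [ZMod.intCast_zmod_eq_zero_iff_dvd]
    push_cast
    exact ⟨a, by ring⟩
  ext
  · simp
  · simp only
    rw [this]
    simp
  · simp

omit hp in
theorem p_le_one : cyc (p ^ 2) p 0 0 ≤ cyc (p ^ 2) 1 0 0 := by
  intro x hx
  obtain ⟨a, rfl⟩ := (mem_cyc _).1 hx
  rw [mem_cyc]
  refine ⟨a * p, ?_⟩
  ext <;> simp

theorem not_one_le : ¬ cyc (p ^ 2) 1 0 0 ≤ cyc (p ^ 2) p 0 0 := by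
  intro h
  have h1 : (((1 : ℤ) : ZMod (p ^ 2)), (0 : ZMod (p ^ 2)), (0 : ZMod (p ^ 2))) ∈ cyc (p ^ 2) 1 0 0 := by
    rw [mem_cyc]
    exact ⟨1, by simp⟩
  obtain ⟨a, ha⟩ := (mem_cyc _).1 (h h1)
  have e1 := congrArg Prod.fst ha
  have e2 : ((1 - a * p : ℤ) : ZMod (p ^ 2)) = 0 := by
    push_cast
    push_cast at e1
    rw [sub_eq_zero]
    exact e1
  rw [ZMod.intCast_zmod_eq_zero_iff_dvd] at e2
  have h2 : (p : ℤ) ∣ 1 - a * p := dvd_trans ⟨p, by push_cast; ring⟩ e2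
  have h3 : (p : ℤ) ∣ 1 := by
    have := dvd_add h2 (Dvd.intro_left a rfl : (p : ℤ) ∣ a * p)
    simpa using this
  have h4 : p ∣ 1 := by exact_mod_cast h3
  exact hp.out.one_lt.ne' (Nat.dvd_one.1 h4)

theorem not_p_le_bot : ¬ cyc (p ^ 2) p 0 0 ≤ ⊥ := by
  intro h
  have h1 : (((p : ℤ) : ZMod (p ^ 2)), (0 : ZMod (p ^ 2)), (0 : ZMod (p ^ 2))) ∈ cyc (p ^ 2) p 0 0 := by
    rw [mem_cyc]
    exact ⟨1, by simp⟩
  have h2 := h h1
  rw [AddSubgroup.mem_bot] at h2
  have e1 : ((p : ℤ) : ZMod (p ^ 2)) = 0 := congrArg Prod.fst h2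
  rw [ZMod.intCast_zmod_eq_zero_iff_dvd] at e1
  have h3 : p ^ 2 ∣ p := by exact_mod_cast e1
  have h4 := Nat.le_of_dvd hp.out.pos h3
  have := hp.out.two_le
  nlinarith

end prime

section main

variable {D : Type u} [DivisionRing D] {V : Type v} [AddCommGroup V] [Module D V]

theorem graph (n : ℕ) (f : LatticeHom (AddSubgroup (C n)) (Submodule D V)) (x y z : V)
    (hx : x ∈ f (cyc n 1 0 0)) (hy : y ∈ f (cyc n 0 1 0)) (hz : z ∈ f (cyc n 0 0 1))
    (hxy : x + y ∈ f (cyc n 1 1 0)) (hxz : x + z ∈ f (cyc n 1 0 1)) (k : ℕ) :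
    x + (k : D) • y ∈ f (cyc n 1 k 0) := by
  have mono : ∀ {S T : AddSubgroup (C n)}, S ≤ T → f S ≤ f T := fun h => OrderHomClass.mono f h
  have hzy : z - y ∈ f (cyc n 0 (-1) 1) := by
    apply mono (le2 n)
    rw [map_inf, map_sup, map_sup]
    refine ⟨?_, ?_⟩
    · rw [show z - y = (x + z) + -(x + y) by abel]
      exact Submodule.add_mem_sup hxz (neg_mem hxy)
    · rw [show z - y = -y + z by abel]
      exact Submodule.add_mem_sup (neg_mem hy) hz
  induction k with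
  | zero => simpa using hx
  | succ k ih =>
    have h1 : x + (k : D) • y + z ∈ f (cyc n 1 k 1) := by
      apply mono (le1 n k)
      rw [map_inf, map_sup, map_sup]
      refine ⟨Submodule.add_mem_sup ih hz, ?_⟩
      rw [show x + (k : D) • y + z = (x + z) + (k : D) • y by abel]
      exact Submodule.add_mem_sup hxz (Submodule.smul_mem _ _ hy)
    have h2 : x + ((k + 1 : ℕ) : D) • y ∈ f (cyc n 1 (k + 1) 0) := by
      apply mono (le3 n k)
      rw [map_inf, map_sup, map_sup]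
      refine ⟨?_, ?_⟩
      · rw [show x + ((k + 1 : ℕ) : D) • y = (x + (k : D) • y + z) + -(z - y) by
          push_cast; rw [add_smul, one_smul]; abel]
        exact Submodule.add_mem_sup h1 (neg_mem hzy)
      · exact Submodule.add_mem_sup hx (Submodule.smul_mem _ _ hy)
    exact_mod_cast h2

theorem no_embedding (p : ℕ) [hp : Fact p.Prime]
    (f : LatticeHom (AddSubgroup (C (p ^ 2))) (Submodule D V)) : ¬ Function.Injective f := by
  intro hf
  have mono : ∀ {S T : AddSubgroup (C (p ^ 2))}, S ≤ T → f S ≤ f T :=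
    fun h => OrderHomClass.mono f h
  have refl : ∀ {S T : AddSubgroup (C (p ^ 2))}, f S ≤ f T → S ≤ T := by
    intro S T h
    have h1 : f (S ⊓ T) = f S := by rw [map_inf]; exact inf_eq_left.2 h
    exact inf_eq_left.1 (hf h1)
  -- existence of `y` and `z`
  have key : ∀ x ∈ f (cyc (p ^ 2) 1 0 0), ∃ y ∈ f (cyc (p ^ 2) 0 1 0),
      x + y ∈ f (cyc (p ^ 2) 1 1 0) ∧ x + (p : D) • y ∈ f (cyc (p ^ 2) 1 p 0) := by
    intro x hx
    have h1 := mono (le4 (p ^ 2) 1) hx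
    rw [map_sup, Submodule.mem_sup] at h1
    obtain ⟨g, hg, y, hy, rfl⟩ := h1
    have h2 := mono (le5 (p ^ 2)) hx
    rw [map_sup, Submodule.mem_sup] at h2
    obtain ⟨g', hg', z, hz, hgz⟩ := h2
    refine ⟨-y, neg_mem hy, by simpa using hg, ?_⟩
    refine graph (p ^ 2) f (g + y) (-y) (-z) hx (neg_mem hy) (neg_mem hz) (by simpa using hg) ?_ p
    rw [← hgz]
    simpa using hg'
  by_cases h0 : (p : D) = 0
  · -- characteristic `p`
    apply not_one_le p
    apply refl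
    intro x hx
    obtain ⟨y, hy, -, h⟩ := key x hx
    rw [h0, zero_smul, add_zero] at h
    apply mono (inf_p p)
    rw [map_inf]
    exact ⟨h, hx⟩
  · apply not_p_le_bot p
    apply refl
    intro x hx
    obtain ⟨y, hy, h1, h2⟩ := key x (mono (p_le_one p) hx)
    have h3 : x ∈ f (cyc (p ^ 2) 1 p 0) := mono (p_le p) hx
    have h4 : (p : D) • y ∈ f (cyc (p ^ 2) 1 p 0) := by
      have := sub_mem h2 h3
      simpa using this
    have h5 : (p : D) • y ∈ f ⊥ := by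
      apply mono (inf_e2 (p ^ 2) p)
      rw [map_inf]
      exact ⟨h4, Submodule.smul_mem _ _ hy⟩
    have h6 : y ∈ f ⊥ := by
      have := Submodule.smul_mem (f ⊥) ((p : D)⁻¹) h5
      rwa [smul_smul, inv_mul_cancel₀ h0, one_smul] at this
    have h7 : x ∈ f (cyc (p ^ 2) 1 1 0) := by
      have := sub_mem h1 (mono bot_le h6)
      simpa using this
    apply mono (inf_e1 (p ^ 2))
    rw [map_inf]
    exact ⟨mono (p_le_one p) hx, h7⟩

end main

/-- The subgroup lattice of a subquotient embeds into the subgroup lattice. -/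
def pull {A : Type w} [AddCommGroup A] {B : Type} [AddCommGroup B] (H : AddSubgroup A)
    (π : H →+ B) (hπ : Function.Surjective π) : LatticeHom (AddSubgroup B) (AddSubgroup A) where
  toFun S := (S.comap π).map H.subtype
  map_sup' S T := by
    rw [← AddSubgroup.map_sup]
    congr 1
    exact (AddSubgroup.comap_sup_eq π S T hπ).symm
  map_inf' S T := by
    rw [AddSubgroup.comap_inf, AddSubgroup.map_inf _ _ _ H.subtype_injective]

theorem pull_injective {A : Type w} [AddCommGroup A] {B : Type} [AddCommGroup B]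
    (H : AddSubgroup A) (π : H →+ B) (hπ : Function.Surjective π) :
    Function.Injective (pull H π hπ) := by
  intro S T h
  have h1 : S.comap π = T.comap π := AddSubgroup.map_injective H.subtype_injective h
  exact AddSubgroup.comap_injective hπ h1

/-- **A finite abelian group whose subgroup lattice embeds into no subspace lattice.** (a) There
is an abelian group `A` of order `64` such that for every division ring `D` and every left
`D`-vector space `V` no lattice homomorphism from the lattice of subgroups of `A` to the lattice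
of subspaces of `V` is injective. (b) More generally, this holds for every abelian group `A` that
has, for some prime `p`, a subgroup `H` with a surjective homomorphism onto `(ℤ/p²)³`. -/
theorem result :
    (∃ (A : Type) (_ : AddCommGroup A), Nat.card A = 64 ∧
      ∀ (D : Type u) [DivisionRing D] (V : Type v) [AddCommGroup V] [Module D V]
        (f : LatticeHom (AddSubgroup A) (Submodule D V)), ¬ Function.Injective f) ∧
    ∀ (A : Type w) [AddCommGroup A] (p : ℕ), p.Prime → ∀ (H : AddSubgroup A)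
      (π : H →+ ZMod (p ^ 2) × ZMod (p ^ 2) × ZMod (p ^ 2)), Function.Surjective π →
      ∀ (D : Type u) [DivisionRing D] (V : Type v) [AddCommGroup V] [Module D V]
        (f : LatticeHom (AddSubgroup A) (Submodule D V)), ¬ Function.Injective f := by
  constructor
  · refine ⟨C (2 ^ 2), inferInstance, ?_, ?_⟩
    · rw [Nat.card_prod, Nat.card_prod, Nat.card_zmod]
      norm_num
    · intro D _ V _ _ f
      have : Fact (Nat.Prime 2) := ⟨Nat.prime_two⟩
      exact no_embedding 2 f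
  · intro A _ p hp H π hπ D _ V _ _ f hf
    have : Fact (Nat.Prime p) := ⟨hp⟩
    exact no_embedding p (f.comp (pull H π hπ)) (hf.comp (pull_injective H π hπ))

end Pool.Agent.Results.MP_0a2dc5_al.NoSkewEmbedding
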